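import Mathlib

/-! # Integral points near squares on Weierstrass curves: algebraic core -/

set_option autoImplicit false

namespace Pool.Agent.H383R3.HL

theorem le_cube (t : ℤ) (ht : 0 ≤ t) : t ≤ t ^ 3 := by
  rcases ht.eq_or_lt with h | h
  · subst h; simp
  · have : 1 ≤ t := h
    nlinarith [mul_nonneg (mul_nonneg ht (sub_nonneg.2 this)) (show (0:ℤ) ≤ t + 1 by omega)]

theorem sq_le_cube (t : ℤ) (ht : 0 ≤ t) : t ^ 2 ≤ t ^ 3 := by
  rcases ht.eq_or_lt with h | h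
  · subst h; simp
  · have : 1 ≤ t := h
    nlinarith [mul_nonneg (mul_nonneg ht ht) (sub_nonneg.2 this)]

/-- bound of `w` -/
theorem wbound (a t α β ω : ℤ) (ha : 100 < a) (ht : 0 ≤ t) (hα : 100 * α ≤ a)
    (hβ : 100 * β ≤ a) (hk : 100 * t ^ 3 ≤ a ^ 2) (hta : t ≤ a) (ht2 : t ^ 2 ≤ t ^ 3)
    (hW : ω * a ^ 3 ≤ a ^ 2 * (3 * t ^ 2 + 4 * α) + 4 * t ^ 3 + 4 * (α * t) + 4 * β) :
    20 * ω ≤ a := by
  by_contra hc
  push Not at hc
  have ha0 : 0 < a := by omega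
  have h1 : a * a ^ 3 < 20 * ω * a ^ 3 := mul_lt_mul_of_pos_right hc (by positivity)
  have h2 : a ^ 2 * (100 * t ^ 2) ≤ a ^ 2 * a ^ 2 :=
    mul_le_mul_of_nonneg_left (by linarith) (by positivity)
  have h3 : a ^ 2 * (100 * α) ≤ a ^ 2 * a := mul_le_mul_of_nonneg_left hα (by positivity)
  have h4 : a ^ 3 * 100 ≤ a ^ 3 * a := mul_le_mul_of_nonneg_left ha.le (by positivity)
  have h5 : a ^ 2 * 100 ≤ a ^ 2 * a := mul_le_mul_of_nonneg_left ha.le (by positivity)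
  have h6 : a * 100 ≤ a * a := mul_le_mul_of_nonneg_left ha.le (by positivity)
  have h7 : (100 * α) * t ≤ a * t := mul_le_mul_of_nonneg_right hα ht
  have h8 : a * t ≤ a * a := mul_le_mul_of_nonneg_left hta ha0.le
  have h9 : 0 < a ^ 4 := by positivity
  linarith

/-- the value of `m` is small -/
theorem mbound (a t α β ω : ℤ) (ha : 100 < a) (ht : 0 ≤ t) (hα : 100 * α ≤ a)
    (hβ : 100 * β ≤ a) (hk : 100 * t ^ 3 ≤ a ^ 2) (hta : t ≤ a) (hω : 0 ≤ ω)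
    (hW : 20 * ω ≤ a) : t ^ 3 + 4 * (α * t) + 2 * ω ^ 2 + 8 * β < a ^ 2 := by
  have ha0 : 0 < a := by omega
  have h6 : a * 100 ≤ a * a := mul_le_mul_of_nonneg_left ha.le (by positivity)
  have h7 : (100 * α) * t ≤ a * t := mul_le_mul_of_nonneg_right hα ht
  have h8 : a * t ≤ a * a := mul_le_mul_of_nonneg_left hta ha0.le
  have h9 : (20 * ω) ^ 2 ≤ a ^ 2 := pow_le_pow_left₀ (by positivity) hW 2
  have h10 : 0 < a ^ 2 := by positivity
  linarith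

/-- the last case -/
theorem last (a t α β ω : ℤ) (ha : 100 < a) (ht : 0 ≤ t) (hα0 : 0 ≤ α) (hα : 100 * α ≤ a)
    (hβ : 100 * β ≤ a) (hk : 100 * t ^ 3 ≤ a ^ 2) (ht1 : t ≤ t ^ 3) (hω : 1 ≤ ω)
    (h2 : 4 * a * ω ≤ 3 * t ^ 2 + 4 * α)
    (h8 : t ^ 3 ≤ 4 * (α * t) + 2 * ω ^ 2 + 8 * β) : False := by
  have ha0 : 0 < a := by omega
  have e1 : 4 * a * 1 ≤ 4 * a * ω := mul_le_mul_of_nonneg_left hω (by positivity)
  have h3 : 132 * a ≤ 100 * t ^ 2 := by linarith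
  have h4 : 1 ≤ t := by
    by_contra hc
    have : t = 0 := by omega
    rw [this] at h3; omega
  have h5 : a * ω ≤ t ^ 2 := by linarith
  have h7 : (a * ω) ^ 2 ≤ (t ^ 2) ^ 2 := pow_le_pow_left₀ (by positivity) h5 2
  have h9 : a ^ 2 * t ^ 3 ≤ a ^ 2 * (4 * (α * t) + 2 * ω ^ 2 + 8 * β) :=
    mul_le_mul_of_nonneg_left h8 (by positivity)
  have h10 : t * (100 * t ^ 3) ≤ t * a ^ 2 := mul_le_mul_of_nonneg_left hk ht
  have h11 : a ≤ t ^ 2 := by linarith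
  have h12 : t * a ≤ t * t ^ 2 := mul_le_mul_of_nonneg_left h11 ht
  have h13 : t ^ 2 * 1 ≤ t ^ 2 * t := mul_le_mul_of_nonneg_left h4 (by positivity)
  have h14 : 0 < a ^ 2 * t ^ 3 := by positivity
  have h15 : (a ^ 2 * t) * (100 * α) ≤ (a ^ 2 * t) * a := mul_le_mul_of_nonneg_left hα (by positivity)
  have h15b : a ^ 2 * (t * a) ≤ a ^ 2 * (t * t ^ 2) := mul_le_mul_of_nonneg_left h12 (by positivity)
  have h16 : a ^ 2 * (100 * β) ≤ a ^ 2 * a := mul_le_mul_of_nonneg_left hβ (by positivity)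
  have h16b : a ^ 2 * a ≤ a ^ 2 * t ^ 3 := mul_le_mul_of_nonneg_left (by linarith) (by positivity)
  have h17 : a ^ 2 * t ≤ a ^ 2 * t ^ 3 := mul_le_mul_of_nonneg_left ht1 (by positivity)
  linarith

/-- the core: a point with `x` close to the square of a large `a` forces the curve to be singular -/
theorem core (A B x y a : ℤ) (hA : 100 * |A| ≤ a) (hB : 100 * |B| ≤ a) (ha : 100 < a)
    (hy : 0 ≤ y) (hk : 100 * |x - a ^ 2| ^ 3 ≤ a ^ 2) (heq : y ^ 2 = x ^ 3 + A * x + B) :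
    4 * A ^ 3 + 27 * B ^ 2 = 0 := by
  obtain ⟨k, rfl⟩ : ∃ k, x = a ^ 2 + k := ⟨x - a ^ 2, by ring⟩
  rw [show a ^ 2 + k - a ^ 2 = k by ring] at hk
  obtain ⟨w, hw⟩ : ∃ w, 2 * y = 2 * a ^ 3 + 3 * a * k + w := ⟨2 * y - 2 * a ^ 3 - 3 * a * k, by ring⟩
  have e0 : w * (w + (4 * a ^ 3 + 6 * a * k)) =
      a ^ 2 * (3 * k ^ 2 + 4 * A) + 4 * k ^ 3 + 4 * (A * k) + 4 * B := by
    have h1 : (2 * y) ^ 2 = 4 * ((a ^ 2 + k) ^ 3 + A * (a ^ 2 + k) + B) := by rw [← heq]; ring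
    rw [hw] at h1
    linear_combination h1
  have e1 : (3 * k ^ 2 + 4 * A - 4 * a * w) * (2 * a ^ 2 + 3 * k) =
      k ^ 3 + 4 * (A * k) + 2 * w ^ 2 - 8 * B := by
    linear_combination (-2) * e0
  clear heq
  have ht0 : 0 ≤ |k| := abs_nonneg k
  have ht1 : |k| ≤ |k| ^ 3 := le_cube _ ht0
  have ht2 : |k| ^ 2 ≤ |k| ^ 3 := sq_le_cube _ ht0
  have ha0 : (0:ℤ) < a := by omega
  have hta : |k| ≤ a := by
    by_contra hc
    push Not at hc
    have h1 : a ^ 2 ≤ |k| ^ 2 := pow_le_pow_left₀ (by omega) hc.le 2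
    have h3 : (0:ℤ) < a ^ 2 := by positivity
    linarith
  have hk1 := neg_abs_le k
  have hk2 := le_abs_self k
  have hA1 := neg_abs_le A
  have hA2 := le_abs_self A
  have hB1 := neg_abs_le B
  have hB2 := le_abs_self B
  have hksq : k ^ 2 = |k| ^ 2 := (sq_abs k).symm
  have hwsq : w ^ 2 = |w| ^ 2 := (sq_abs w).symm
  have hkcu1 : -(|k| ^ 3) ≤ k ^ 3 := by
    have := neg_abs_le (k ^ 3); rwa [abs_pow] at this
  have hkcu2 : k ^ 3 ≤ |k| ^ 3 := by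
    have := le_abs_self (k ^ 3); rwa [abs_pow] at this
  have hAk1 : -(|A| * |k|) ≤ A * k := by
    have := neg_abs_le (A * k); rwa [abs_mul] at this
  have hAk2 : A * k ≤ |A| * |k| := by
    have := le_abs_self (A * k); rwa [abs_mul] at this
  have ha2 : 0 ≤ a ^ 2 := by positivity
  have hwsq0 : 0 ≤ |w| ^ 2 := by positivity
  have hW : |w| * a ^ 3 ≤ a ^ 2 * (3 * |k| ^ 2 + 4 * |A|) + 4 * |k| ^ 3 + 4 * (|A| * |k|) + 4 * |B| := by
    have h1 : a ^ 3 ≤ w + (4 * a ^ 3 + 6 * a * k) := by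
      have h2 : 0 ≤ a * (a ^ 2 + 3 * k) := mul_nonneg ha0.le (by linarith)
      have h3 : 0 ≤ a ^ 3 := by positivity
      linarith
    have h2 : |w| * a ^ 3 ≤ |w| * |w + (4 * a ^ 3 + 6 * a * k)| :=
      mul_le_mul_of_nonneg_left (h1.trans (le_abs_self _)) (abs_nonneg w)
    rw [← abs_mul, e0] at h2
    refine h2.trans ?_
    have q1 : a ^ 2 * (3 * k ^ 2 + 4 * A) ≤ a ^ 2 * (3 * |k| ^ 2 + 4 * |A|) :=
      mul_le_mul_of_nonneg_left (by linarith) ha2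
    have q2 : a ^ 2 * (-(3 * |k| ^ 2 + 4 * |A|)) ≤ a ^ 2 * (3 * k ^ 2 + 4 * A) := by
      apply mul_le_mul_of_nonneg_left _ ha2
      have : 0 ≤ |k| ^ 2 := by positivity
      linarith
    rw [abs_le]
    constructor
    · linarith
    · linarith
  have hw20 : 20 * |w| ≤ a := wbound a |k| |A| |B| |w| ha ht0 hA hB hk hta ht2 hW
  have hmb := mbound a |k| |A| |B| |w| ha ht0 hA hB hk hta (abs_nonneg w) hw20
  have hm : 3 * k ^ 2 + 4 * A - 4 * a * w = 0 := by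
    by_contra hm
    have h1 : 1 ≤ |3 * k ^ 2 + 4 * A - 4 * a * w| := Int.one_le_abs hm
    have h2 : a ^ 2 ≤ 2 * a ^ 2 + 3 * k := by linarith
    have h4 : a ^ 2 ≤ |2 * a ^ 2 + 3 * k| := h2.trans (le_abs_self _)
    have h3 : 1 * a ^ 2 ≤ |3 * k ^ 2 + 4 * A - 4 * a * w| * |2 * a ^ 2 + 3 * k| :=
      mul_le_mul h1 h4 ha2 (abs_nonneg _)
    rw [← abs_mul, e1] at h3
    have h5 : |k ^ 3 + 4 * (A * k) + 2 * w ^ 2 - 8 * B| < a ^ 2 := by
      rw [abs_lt]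
      constructor
      · linarith
      · linarith
    linarith
  rw [hm, zero_mul] at e1
  rcases eq_or_ne w 0 with h0 | h0
  · rw [h0] at hm e1
    have h1 : 4 * A = -3 * k ^ 2 := by linarith
    have h2 : 4 * B = - k ^ 3 := by
      have : 4 * (A * k) = (4 * A) * k := by ring
      rw [this, h1] at e1
      linarith
    have h3 : 16 * (4 * A ^ 3 + 27 * B ^ 2) = (4 * A) ^ 3 + 27 * (4 * B) ^ 2 := by ring
    rw [h1, h2] at h3
    have h4 : 16 * (4 * A ^ 3 + 27 * B ^ 2) = 0 := by rw [h3]; ring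
    omega
  · exfalso
    have h1 : 1 ≤ |w| := Int.one_le_abs h0
    have h2 : 4 * a * |w| ≤ 3 * |k| ^ 2 + 4 * |A| := by
      have h4 : 4 * a * w = 3 * k ^ 2 + 4 * A := by linarith
      have h3 : |4 * a * w| = 4 * a * |w| := by
        rw [abs_mul, abs_of_pos (by positivity : (0:ℤ) < 4 * a)]
      rw [← h3, h4, abs_le]
      have : 0 ≤ |k| ^ 2 := by positivity
      constructor
      · linarith
      · linarith
    have h8 : |k| ^ 3 ≤ 4 * (|A| * |k|) + 2 * |w| ^ 2 + 8 * |B| := by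
      have : |k| ^ 3 = |k ^ 3| := (abs_pow k 3).symm
      rw [this, abs_le]
      constructor
      · linarith
      · linarith
    exact last a |k| |A| |B| |w| ha ht0 (abs_nonneg A) hA hB hk ht1 h1 h2 h8

end Pool.Agent.H383R3.HL
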