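import Pool.Agent.H383R3.HL.Core

/-! # Integral points near squares on Weierstrass curves: the next range -/

set_option autoImplicit false

namespace Pool.Agent.H383R3.HL

/-- sizes of `t` and `H` -/
theorem sz (a t H : ℤ) (ht0 : 0 ≤ t) (hH : 1 ≤ H) (ha : 10 ^ 6 * H ^ 3 < a)
    (hk : 1000 * t ^ 5 ≤ a ^ 4) (hbig : a ^ 2 < 100 * t ^ 3) :
    t ≤ a ∧ 2000 * H ^ 2 < t ∧ 1000 * (H * t ^ 2) ≤ a ^ 2 := by
  have hH3 : 1 ≤ H ^ 3 := one_le_pow₀ hH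
  have ha0 : 0 < a := by linarith
  have ha6 : (10 ^ 6 * H ^ 3) ^ 2 < a ^ 2 := pow_lt_pow_left₀ ha (by positivity) (by norm_num)
  have ha4 : 0 < a ^ 4 := by positivity
  refine ⟨?_, ?_, ?_⟩
  · by_contra hc
    push Not at hc
    have h1 : a ^ 5 ≤ t ^ 5 := pow_le_pow_left₀ ha0.le hc.le 5
    have h2 : a ^ 4 * 1 ≤ a ^ 4 * a := mul_le_mul_of_nonneg_left (by omega) ha4.le
    linarith
  · by_contra hc
    push Not at hc
    have h1 : t ^ 3 ≤ (2000 * H ^ 2) ^ 3 := pow_le_pow_left₀ ht0 hc 3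
    have h2 : 0 < H ^ 6 := by positivity
    linarith
  · by_contra hc
    push Not at hc
    have h1 : (a ^ 2) ^ 5 < (1000 * (H * t ^ 2)) ^ 5 :=
      pow_lt_pow_left₀ hc (by positivity) (by norm_num)
    have h2 : (1000 * t ^ 5) ^ 2 ≤ (a ^ 4) ^ 2 := pow_le_pow_left₀ (by positivity) hk 2
    have h3 : (10 ^ 9 * H ^ 5) * (1000 * t ^ 5) ^ 2 ≤ (10 ^ 9 * H ^ 5) * (a ^ 4) ^ 2 :=
      mul_le_mul_of_nonneg_left h2 (by positivity)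
    have h4 : H ^ 5 * 1 ≤ H ^ 5 * H := mul_le_mul_of_nonneg_left hH (by positivity)
    have h5 : 10 ^ 9 * H ^ 5 ≤ a ^ 2 := by
      have : 0 < H ^ 6 := by positivity
      linarith
    have h6 : (10 ^ 9 * H ^ 5) * a ^ 8 ≤ a ^ 2 * a ^ 8 := mul_le_mul_of_nonneg_right h5 (by positivity)
    linarith

/-- crude bound of `w` -/
theorem w1 (a t α β ω H : ℤ) (ha : 10 ^ 6 < a) (hH : 1 ≤ H) (hα : α ≤ H) (hβ : β ≤ H)
    (hta : t ≤ a) (hHt : 2000 * H ≤ t)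
    (hW : ω * a ^ 3 ≤ a ^ 2 * (3 * t ^ 2 + 4 * α) + 4 * t ^ 3 + 4 * (α * t) + 4 * β) :
    ω * a ≤ 4 * t ^ 2 := by
  have ha0 : 0 < a := by linarith
  have ht0 : 0 < t := by linarith
  have h1 : t * t ^ 2 ≤ a * t ^ 2 := mul_le_mul_of_nonneg_right hta (by positivity)
  have h2 : α * t ≤ H * t := mul_le_mul_of_nonneg_right hα ht0.le
  have h3 : (2000 * H) * t ≤ t * t := mul_le_mul_of_nonneg_right hHt ht0.le
  have h4 : a ^ 2 * α ≤ a ^ 2 * H := mul_le_mul_of_nonneg_left hα (by positivity)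
  have h5 : a ^ 2 * (2000 * H) ≤ a ^ 2 * t := mul_le_mul_of_nonneg_left hHt (by positivity)
  have h6 : a ^ 2 * (t * 1) ≤ a ^ 2 * (t * t) :=
    mul_le_mul_of_nonneg_left (mul_le_mul_of_nonneg_left (by omega) ht0.le) (by positivity)
  have h7 : (10 ^ 6 * 1) * (a * t ^ 2) ≤ a * (a * t ^ 2) :=
    mul_le_mul_of_nonneg_right (by linarith) (by positivity)
  have h8 : 1 * t ^ 2 ≤ a * t ^ 2 := mul_le_mul_of_nonneg_right (by linarith) (by positivity)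
  have h9 : t * 1 ≤ t * t := mul_le_mul_of_nonneg_left (by omega) ht0.le
  have h10 : 0 < a * (a * t ^ 2) := by positivity
  have h11 : a ^ 2 * (ω * a) ≤ a ^ 2 * (4 * t ^ 2) := by linarith
  exact le_of_mul_le_mul_left h11 (by positivity)

/-- the right-hand side of the second identity -/
theorem m1 (a t α β ω H : ℤ) (ha : 10 ^ 6 < a) (hH : 1 ≤ H) (hα : α ≤ H) (hβ : β ≤ H)
    (hta : t ≤ a) (hHt : 2000 * H ≤ t) (hω : 0 ≤ ω) (hw : ω * a ≤ 4 * t ^ 2) :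
    50 * (4 * (α * t) + 2 * ω ^ 2 + 8 * β) ≤ t ^ 3 := by
  have ha0 : 0 < a := by linarith
  have ht0 : 0 < t := by linarith
  have h1 : (ω * a) ^ 2 ≤ (4 * t ^ 2) ^ 2 := pow_le_pow_left₀ (by positivity) hw 2
  have h2 : t * t ^ 3 ≤ a * t ^ 3 := mul_le_mul_of_nonneg_right hta (by positivity)
  have h3 : a * (a * ω ^ 2) ≤ a * (16 * t ^ 3) := by linarith
  have h4 : a * ω ^ 2 ≤ 16 * t ^ 3 := le_of_mul_le_mul_left h3 ha0
  have h5 : 10 ^ 6 * ω ^ 2 ≤ a * ω ^ 2 := mul_le_mul_of_nonneg_right ha.le (by positivity)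
  have h6 : α * t ≤ H * t := mul_le_mul_of_nonneg_right hα ht0.le
  have h7 : (2000 * H) * t ≤ t * t := mul_le_mul_of_nonneg_right hHt ht0.le
  have h8 : 2000 ≤ t := by linarith
  have h9 : 2000 * t ^ 2 ≤ t * t ^ 2 := mul_le_mul_of_nonneg_right h8 (by positivity)
  have h10 : 2000 * t ≤ t * t := mul_le_mul_of_nonneg_right h8 ht0.le
  have h11 : 0 < t ^ 3 := by positivity
  linarith

/-- bound of `m` -/
theorem m2 (a t μ : ℤ) (ha : 10 ^ 6 < a) (ht0 : 0 < t) (hta : t ≤ a) (hμ : 0 ≤ μ)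
    (h : 50 * (μ * (2 * a ^ 2 - 3 * t)) ≤ 51 * t ^ 3) : a ^ 2 * μ ≤ t ^ 3 := by
  have h1 : μ * (3 * t) ≤ μ * (3 * a) := mul_le_mul_of_nonneg_left (by linarith) hμ
  have h2 : μ * (a * 10 ^ 6) ≤ μ * (a * a) :=
    mul_le_mul_of_nonneg_left (mul_le_mul_of_nonneg_left ha.le (by linarith)) hμ
  have h3 : 0 ≤ μ * a := mul_nonneg hμ (by linarith)
  have h4 : 0 < t ^ 3 := by positivity
  linarith

/-- second bound of `w` -/
theorem w2 (a t α μ ω H : ℤ) (ha : 10 ^ 6 < a) (hH : 1 ≤ H) (hα : α ≤ H) (ht0 : 0 < t)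
    (hta : t ≤ a) (hHt : 2000 * H ≤ t) (hμt : 1000 * μ ≤ t)
    (h : 4 * a * ω ≤ 3 * t ^ 2 + 4 * α + μ) : a * ω ≤ t ^ 2 := by
  have h8 : 2000 ≤ t := by linarith
  have h10 : 2000 * t ≤ t * t := mul_le_mul_of_nonneg_right h8 ht0.le
  have h11 : 0 < t ^ 2 := by positivity
  linarith

/-- `n = 0` -/
theorem nz (a t α β μ ω H R : ℤ) (ha : 10 ^ 6 * H ^ 3 < a) (hH : 1 ≤ H) (hα0 : 0 ≤ α)
    (hβ0 : 0 ≤ β) (hα : α ≤ H) (hβ : β ≤ H) (ht0 : 0 < t) (hμ0 : 0 ≤ μ) (hω0 : 0 ≤ ω)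
    (hk : 1000 * t ^ 5 ≤ a ^ 4) (hHt2 : 1000 * (H * t ^ 2) ≤ a ^ 2)
    (hμ : a ^ 2 * μ ≤ t ^ 3) (hμt : μ ≤ t) (hω : a * ω ≤ t ^ 2)
    (hR : R ≤ 6 * t ^ 2 * μ ^ 2 + 24 * α * t ^ 2 * μ + μ * (32 * α ^ 2 + 2 * μ ^ 2) +
      24 * t * μ * ω ^ 2 + 32 * α * t * ω ^ 2 + 16 * ω ^ 4 + 64 * β * ω ^ 2) : R < t ^ 3 := by
  have hH3 : 1 ≤ H ^ 3 := one_le_pow₀ hH
  have ha0 : 0 < a := by linarith
  have hμ2 : (a ^ 2 * μ) ^ 2 ≤ (t ^ 3) ^ 2 := pow_le_pow_left₀ (by positivity) hμ 2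
  have hω2 : (a * ω) ^ 2 ≤ (t ^ 2) ^ 2 := pow_le_pow_left₀ (by positivity) hω 2
  have hω4 : (a * ω) ^ 4 ≤ (t ^ 2) ^ 4 := pow_le_pow_left₀ (by positivity) hω 4
  -- the seven terms times a^4
  have T1 : (6 * t ^ 2) * (a ^ 2 * μ) ^ 2 ≤ (6 * t ^ 2) * (t ^ 3) ^ 2 :=
    mul_le_mul_of_nonneg_left hμ2 (by positivity)
  have T2 : (24 * α * t ^ 2 * a ^ 2) * (a ^ 2 * μ) ≤ (24 * α * t ^ 2 * a ^ 2) * t ^ 3 :=
    mul_le_mul_of_nonneg_left hμ (by positivity)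
  have T3 : (32 * α ^ 2 * a ^ 2) * (a ^ 2 * μ) ≤ (32 * α ^ 2 * a ^ 2) * t ^ 3 :=
    mul_le_mul_of_nonneg_left hμ (by positivity)
  have T4 : (2 * μ) * (a ^ 2 * μ) ^ 2 ≤ (2 * t) * (t ^ 3) ^ 2 :=
    mul_le_mul (by linarith) hμ2 (by positivity) (by positivity)
  have T5 : (24 * t) * ((a ^ 2 * μ) * (a * ω) ^ 2) ≤ (24 * t) * (t ^ 3 * (t ^ 2) ^ 2) :=
    mul_le_mul_of_nonneg_left (mul_le_mul hμ hω2 (by positivity) (by positivity)) (by positivity)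
  have T6 : (32 * α * t * a ^ 2) * (a * ω) ^ 2 ≤ (32 * α * t * a ^ 2) * (t ^ 2) ^ 2 :=
    mul_le_mul_of_nonneg_left hω2 (by positivity)
  have T8 : (64 * β * a ^ 2) * (a * ω) ^ 2 ≤ (64 * β * a ^ 2) * (t ^ 2) ^ 2 :=
    mul_le_mul_of_nonneg_left hω2 (by positivity)
  have TR : a ^ 4 * R ≤ a ^ 4 * (6 * t ^ 2 * μ ^ 2 + 24 * α * t ^ 2 * μ +
      μ * (32 * α ^ 2 + 2 * μ ^ 2) +
      24 * t * μ * ω ^ 2 + 32 * α * t * ω ^ 2 + 16 * ω ^ 4 + 64 * β * ω ^ 2) :=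
    mul_le_mul_of_nonneg_left hR (by positivity)
  -- comparisons with a^4 t^3
  have C1 : (1000 * t ^ 5) * t ^ 3 ≤ a ^ 4 * t ^ 3 := mul_le_mul_of_nonneg_right hk (by positivity)
  have h7 : t ^ 7 * 1 ≤ t ^ 7 * t := mul_le_mul_of_nonneg_left (by omega) (by positivity)
  have C2 : (a ^ 2 * t ^ 3) * (1000 * (H * t ^ 2)) ≤ (a ^ 2 * t ^ 3) * a ^ 2 :=
    mul_le_mul_of_nonneg_left hHt2 (by positivity)
  have C3 : (a ^ 2 * t ^ 5) * α ≤ (a ^ 2 * t ^ 5) * H := mul_le_mul_of_nonneg_left hα (by positivity)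
  have C4 : (a ^ 2 * t ^ 4) * β ≤ (a ^ 2 * t ^ 4) * H := mul_le_mul_of_nonneg_left hβ (by positivity)
  have C5 : (a ^ 2 * t ^ 4 * H) * 1 ≤ (a ^ 2 * t ^ 4 * H) * t :=
    mul_le_mul_of_nonneg_left (by omega) (by positivity)
  have C6 : α ^ 2 ≤ H ^ 2 := pow_le_pow_left₀ hα0 hα 2
  have C7 : H ^ 2 * 1 ≤ H ^ 2 * H := mul_le_mul_of_nonneg_left hH (by positivity)
  have C8 : 10 ^ 6 * α ^ 2 ≤ a := by linarith
  have C9 : a * 1 ≤ a * a := mul_le_mul_of_nonneg_left (by omega) ha0.le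
  have C10 : (a ^ 2 * t ^ 3) * (10 ^ 6 * α ^ 2) ≤ (a ^ 2 * t ^ 3) * a ^ 2 :=
    mul_le_mul_of_nonneg_left (by linarith) (by positivity)
  have C11 : 0 < a ^ 4 * t ^ 3 := by positivity
  have hfin : a ^ 4 * R < a ^ 4 * t ^ 3 := by linarith
  exact lt_of_mul_lt_mul_left hfin (by positivity)

end Pool.Agent.H383R3.HL
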