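import Pool.Agent.H383R3.HL.Core2

/-! # Integral points near squares on Weierstrass curves: the range `|k|^5 ≤ a^4/1000` -/

set_option autoImplicit false

namespace Pool.Agent.H383R3.HL

theorem core2 (A B x y a H : ℤ) (hA : |A| ≤ H) (hB : |B| ≤ H) (hH : 1 ≤ H)
    (ha : 10 ^ 6 * H ^ 3 < a)
    (hy : 0 ≤ y) (hk : 1000 * |x - a ^ 2| ^ 5 ≤ a ^ 4) (heq : y ^ 2 = x ^ 3 + A * x + B) :
    4 * A ^ 3 + 27 * B ^ 2 = 0 := by
  have hH3 : 1 ≤ H ^ 3 := one_le_pow₀ hH
  have hH1 : H * 1 ≤ H * H ^ 2 := mul_le_mul_of_nonneg_left (one_le_pow₀ hH) (by omega)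
  have ha0 : 0 < a := by linarith
  have ha6 : 10 ^ 6 < a := by linarith
  rcases le_or_gt (100 * |x - a ^ 2| ^ 3) (a ^ 2) with hsm | hbig
  · exact core A B x y a (by linarith) (by linarith) (by linarith) hy hsm heq
  exfalso
  obtain ⟨k, rfl⟩ : ∃ k, x = a ^ 2 + k := ⟨x - a ^ 2, by ring⟩
  rw [show a ^ 2 + k - a ^ 2 = k by ring] at hk hbig
  obtain ⟨w, hw⟩ : ∃ w, 2 * y = 2 * a ^ 3 + 3 * a * k + w := ⟨2 * y - 2 * a ^ 3 - 3 * a * k, by ring⟩
  have e0 : w * (w + (4 * a ^ 3 + 6 * a * k)) =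
      a ^ 2 * (3 * k ^ 2 + 4 * A) + 4 * k ^ 3 + 4 * (A * k) + 4 * B := by
    have h1 : (2 * y) ^ 2 = 4 * ((a ^ 2 + k) ^ 3 + A * (a ^ 2 + k) + B) := by rw [← heq]; ring
    rw [hw] at h1
    linear_combination h1
  obtain ⟨m, hm⟩ : ∃ m, m = 3 * k ^ 2 + 4 * A - 4 * a * w := ⟨_, rfl⟩
  have e1 : m * (2 * a ^ 2 + 3 * k) = k ^ 3 + 4 * (A * k) + 2 * w ^ 2 - 8 * B := by
    rw [hm]
    linear_combination (-2) * e0
  have e3 : k ^ 3 * (9 * m * k - 8 * w ^ 2) = 6 * k ^ 2 * m ^ 2 - 24 * A * k ^ 2 * m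
      - m * (4 * A - m) ^ 2 - 24 * k * m * w ^ 2 + 32 * A * k * w ^ 2 + 16 * w ^ 4
      - 64 * B * w ^ 2 := by
    have h1 : 4 * a * w = 3 * k ^ 2 + 4 * A - m := by linarith
    have h2 : m * ((4 * a * w) ^ 2 + 24 * k * w ^ 2) =
        8 * w ^ 2 * (k ^ 3 + 4 * (A * k) + 2 * w ^ 2 - 8 * B) := by
      linear_combination (8 * w ^ 2) * e1
    rw [h1] at h2
    linear_combination h2
  clear heq
  have ht00 : 0 ≤ |k| := abs_nonneg k
  obtain ⟨hta, hHt2, hHt⟩ := sz a |k| H ht00 hH ha hk hbig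
  have hHH2 : H * 1 ≤ H * H := mul_le_mul_of_nonneg_left hH (by omega)
  have h2000 : 2000 * H ≤ |k| := by linarith
  have ht0 : 0 < |k| := by linarith
  have hk1 := neg_abs_le k
  have hk2 := le_abs_self k
  have hA1 := neg_abs_le A
  have hA2 := le_abs_self A
  have hB1 := neg_abs_le B
  have hB2 := le_abs_self B
  have hA0 := abs_nonneg A
  have hB0 := abs_nonneg B
  have hm0 := abs_nonneg m
  have hw0 := abs_nonneg w
  have hksq : k ^ 2 = |k| ^ 2 := (sq_abs k).symm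
  have hwsq : w ^ 2 = |w| ^ 2 := (sq_abs w).symm
  have hkcu1 : -(|k| ^ 3) ≤ k ^ 3 := by
    have := neg_abs_le (k ^ 3); rwa [abs_pow] at this
  have hkcu2 : k ^ 3 ≤ |k| ^ 3 := by
    have := le_abs_self (k ^ 3); rwa [abs_pow] at this
  have hAk1 : -(|A| * |k|) ≤ A * k := by
    have := neg_abs_le (A * k); rwa [abs_mul] at this
  have hAk2 : A * k ≤ |A| * |k| := by
    have := le_abs_self (A * k); rwa [abs_mul] at this
  have ha2 : 0 ≤ a ^ 2 := by positivity
  have haa : 10 ^ 6 * a ≤ a * a := mul_le_mul_of_nonneg_right ha6.le ha0.le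
  have hW : |w| * a ^ 3 ≤ a ^ 2 * (3 * |k| ^ 2 + 4 * |A|) + 4 * |k| ^ 3 + 4 * (|A| * |k|) + 4 * |B| := by
    have h1 : a ^ 3 ≤ w + (4 * a ^ 3 + 6 * a * k) := by
      have h2 : 0 ≤ a * (a ^ 2 + 3 * k) := mul_nonneg ha0.le (by linarith)
      have h3 : 0 ≤ a ^ 3 := by positivity
      linarith
    have h2 : |w| * a ^ 3 ≤ |w| * |w + (4 * a ^ 3 + 6 * a * k)| :=
      mul_le_mul_of_nonneg_left (h1.trans (le_abs_self _)) (abs_nonneg w)
    rw [← abs_mul, e0] at h2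
    refine h2.trans ?_
    have q1 : a ^ 2 * (3 * k ^ 2 + 4 * A) ≤ a ^ 2 * (3 * |k| ^ 2 + 4 * |A|) :=
      mul_le_mul_of_nonneg_left (by linarith) ha2
    have q2 : a ^ 2 * (-(3 * |k| ^ 2 + 4 * |A|)) ≤ a ^ 2 * (3 * k ^ 2 + 4 * A) := by
      apply mul_le_mul_of_nonneg_left _ ha2
      have : 0 ≤ |k| ^ 2 := by positivity
      linarith
    rw [abs_le]
    constructor
    · linarith
    · linarith
  have hw1 : |w| * a ≤ 4 * |k| ^ 2 := w1 a |k| |A| |B| |w| H ha6 hH hA hB hta h2000 hW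
  have hm1 := m1 a |k| |A| |B| |w| H ha6 hH hA hB hta h2000 hw0 hw1
  have hm2 : a ^ 2 * |m| ≤ |k| ^ 3 := by
    apply m2 a |k| |m| ha6 ht0 hta hm0
    have h1 : |m| * (2 * a ^ 2 - 3 * |k|) ≤ |m| * |2 * a ^ 2 + 3 * k| :=
      mul_le_mul_of_nonneg_left (le_trans (by linarith) (le_abs_self _)) hm0
    rw [← abs_mul, e1] at h1
    have h2 : |k ^ 3 + 4 * (A * k) + 2 * w ^ 2 - 8 * B| ≤
        |k| ^ 3 + (4 * (|A| * |k|) + 2 * |w| ^ 2 + 8 * |B|) := by
      have : 0 ≤ |w| ^ 2 := by positivity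
      rw [abs_le]
      constructor
      · linarith
      · linarith
    linarith
  have hmt : 1000 * |m| ≤ |k| := by
    have h1 : (1000 * (1 * |k| ^ 2)) * |m| ≤ a ^ 2 * |m| := by
      apply mul_le_mul_of_nonneg_right _ hm0
      have : 1 * |k| ^ 2 ≤ H * |k| ^ 2 := mul_le_mul_of_nonneg_right hH (by positivity)
      linarith
    have h2 : |k| ^ 2 * (1000 * |m|) ≤ |k| ^ 2 * |k| := by linarith
    exact le_of_mul_le_mul_left h2 (by positivity)
  have hw2 : a * |w| ≤ |k| ^ 2 := by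
    apply w2 a |k| |A| |m| |w| H ha6 hH hA ht0 hta h2000 hmt
    have h4 : 4 * a * w = 3 * k ^ 2 + 4 * A - m := by linarith
    have h3 : |4 * a * w| = 4 * a * |w| := by
      rw [abs_mul, abs_of_pos (by positivity : (0:ℤ) < 4 * a)]
    rw [← h3, h4, abs_le]
    have : 0 ≤ |k| ^ 2 := by positivity
    have k1 := neg_abs_le m
    have k2 := le_abs_self m
    constructor
    · linarith
    · linarith
  -- n = 0
  have hn : 9 * m * k - 8 * w ^ 2 = 0 := by
    by_contra hn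
    have h1 : 1 ≤ |9 * m * k - 8 * w ^ 2| := Int.one_le_abs hn
    have h2 : |k| ^ 3 * 1 ≤ |k| ^ 3 * |9 * m * k - 8 * w ^ 2| :=
      mul_le_mul_of_nonneg_left h1 (by positivity)
    rw [← abs_pow, ← abs_mul, e3, abs_pow] at h2
    have h3 := nz a |k| |A| |B| |m| |w| H
      |6 * k ^ 2 * m ^ 2 - 24 * A * k ^ 2 * m
      - m * (4 * A - m) ^ 2 - 24 * k * m * w ^ 2 + 32 * A * k * w ^ 2 + 16 * w ^ 4
      - 64 * B * w ^ 2| ha hH hA0 hB0 hA hB ht0 hm0 hw0 hk hHt hm2 (by linarith) hw2 ?_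
    · linarith
    · have g1 : |6 * k ^ 2 * m ^ 2| = 6 * |k| ^ 2 * |m| ^ 2 := by
        rw [abs_mul, abs_mul, abs_pow, abs_pow]; norm_num
      have g2 : |24 * A * k ^ 2 * m| = 24 * |A| * |k| ^ 2 * |m| := by
        rw [abs_mul, abs_mul, abs_mul, abs_pow]; norm_num
      have g3 : |m * (4 * A - m) ^ 2| ≤ |m| * (32 * |A| ^ 2 + 2 * |m| ^ 2) := by
        rw [abs_mul]
        apply mul_le_mul_of_nonneg_left _ hm0
        rw [abs_of_nonneg (sq_nonneg _), sq_abs, sq_abs]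
        have : 0 ≤ (4 * A + m) ^ 2 := sq_nonneg _
        linarith
      have g4 : |24 * k * m * w ^ 2| = 24 * |k| * |m| * |w| ^ 2 := by
        rw [abs_mul, abs_mul, abs_mul, abs_pow]; norm_num
      have g5 : |32 * A * k * w ^ 2| = 32 * |A| * |k| * |w| ^ 2 := by
        rw [abs_mul, abs_mul, abs_mul, abs_pow]; norm_num
      have g6 : |16 * w ^ 4| = 16 * |w| ^ 4 := by
        rw [abs_mul, abs_pow]; norm_num
      have g7 : |64 * B * w ^ 2| = 64 * |B| * |w| ^ 2 := by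
        rw [abs_mul, abs_mul, abs_pow]; norm_num
      rw [abs_le] at g3
      have l1 := le_abs_self (6 * k ^ 2 * m ^ 2)
      have l1' := neg_abs_le (6 * k ^ 2 * m ^ 2)
      have l2 := le_abs_self (24 * A * k ^ 2 * m)
      have l2' := neg_abs_le (24 * A * k ^ 2 * m)
      have l4 := le_abs_self (24 * k * m * w ^ 2)
      have l4' := neg_abs_le (24 * k * m * w ^ 2)
      have l5 := le_abs_self (32 * A * k * w ^ 2)
      have l5' := neg_abs_le (32 * A * k * w ^ 2)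
      have l6 := le_abs_self (16 * w ^ 4)
      have l6' := neg_abs_le (16 * w ^ 4)
      have l7 := le_abs_self (64 * B * w ^ 2)
      have l7' := neg_abs_le (64 * B * w ^ 2)
      rw [g1] at l1 l1'
      rw [g2] at l2 l2'
      rw [g4] at l4 l4'
      rw [g5] at l5 l5'
      rw [g6] at l6 l6'
      rw [g7] at l7 l7'
      generalize 6 * k ^ 2 * m ^ 2 = X1 at *
      generalize 24 * A * k ^ 2 * m = X2 at *
      generalize m * (4 * A - m) ^ 2 = X3 at *
      generalize 24 * k * m * w ^ 2 = X4 at *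
      generalize 32 * A * k * w ^ 2 = X5 at *
      generalize 16 * w ^ 4 = X6 at *
      generalize 64 * B * w ^ 2 = X7 at *
      rw [abs_le]
      obtain ⟨g31, g32⟩ := g3
      constructor
      · linarith
      · linarith
  -- m ≠ 0
  have hmne : m ≠ 0 := by
    intro h0
    rw [h0, zero_mul] at e1
    have h1 : |k| ^ 3 ≤ 4 * (|A| * |k|) + 2 * |w| ^ 2 + 8 * |B| := by
      have : |k| ^ 3 = |k ^ 3| := (abs_pow k 3).symm
      rw [this, abs_le]
      have : 0 ≤ |w| ^ 2 := by positivity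
      constructor
      · linarith
      · linarith
    have h2 : 0 < |k| ^ 3 := by positivity
    linarith
  have hS : 3 * k ^ 2 * m - 48 * A * k ^ 2 + 4 * (4 * A - m) ^ 2 + 288 * B * k = 0 := by
    rw [hn, mul_zero] at e3
    have h1 : m * (2 * (3 * k ^ 2 * m - 48 * A * k ^ 2 + 4 * (4 * A - m) ^ 2 + 288 * B * k)) = 0 := by
      linear_combination (-8) * (-e3) - (-24 * k * m + 32 * A * k - 64 * B + 16 * w ^ 2 + 18 * m * k) * hn
    have h2 := (mul_eq_zero.mp h1).resolve_left hmne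
    linarith
  -- 3 m = 48 A
  have hmA : 3 * m - 48 * A = 0 := by
    by_contra hne
    have h1 : 1 ≤ |3 * m - 48 * A| := Int.one_le_abs hne
    have h2 : |k| ^ 2 * 1 ≤ |k| ^ 2 * |3 * m - 48 * A| := mul_le_mul_of_nonneg_left h1 (by positivity)
    rw [← abs_pow, ← abs_mul, show k ^ 2 * (3 * m - 48 * A) = -(4 * (4 * A - m) ^ 2 + 288 * (B * k)) by
      linear_combination hS, abs_neg, abs_pow] at h2
    have hBk1 : -(|B| * |k|) ≤ B * k := by
      have := neg_abs_le (B * k); rwa [abs_mul] at this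
    have hBk2 : B * k ≤ |B| * |k| := by
      have := le_abs_self (B * k); rwa [abs_mul] at this
    have h3 : |4 * (4 * A - m) ^ 2 + 288 * (B * k)| ≤
        128 * |A| ^ 2 + 8 * |m| ^ 2 + 288 * (|B| * |k|) := by
      have q : 0 ≤ (4 * A + m) ^ 2 := sq_nonneg _
      have q' : 0 ≤ (4 * A - m) ^ 2 := sq_nonneg _
      have q1 : A ^ 2 = |A| ^ 2 := (sq_abs A).symm
      have q2 : m ^ 2 = |m| ^ 2 := (sq_abs m).symm
      have q3 : 0 ≤ |A| ^ 2 := by positivity
      have q4 : 0 ≤ |m| ^ 2 := by positivity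
      rw [abs_le]
      constructor
      · linarith
      · linarith
    have h4 : (2000 * |A|) ^ 2 ≤ |k| ^ 2 := pow_le_pow_left₀ (by positivity) (by linarith) 2
    have h5 : (1000 * |m|) ^ 2 ≤ |k| ^ 2 := pow_le_pow_left₀ (by positivity) hmt 2
    have h6 : (2000 * |B|) * |k| ≤ |k| * |k| := mul_le_mul_of_nonneg_right (by linarith) ht0.le
    have h7 : 0 < |k| ^ 2 := by positivity
    linarith
  have hm16 : m = 16 * A := by omega
  have hfin : 2 * A ^ 2 + B * k = 0 := by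
    rw [hm16] at hS
    have : 288 * (2 * A ^ 2 + B * k) = 0 := by linear_combination hS
    omega
  rcases eq_or_ne B 0 with hB00 | hB00
  · rw [hB00] at hfin
    have : A ^ 2 = 0 := by linarith
    have hA00 : A = 0 := by simpa using this
    rw [hA00] at hm16
    exact hmne (by simpa using hm16)
  · have h1 : 1 ≤ |B| := Int.one_le_abs hB00
    have h2 : 1 * |k| ≤ |B| * |k| := mul_le_mul_of_nonneg_right h1 ht0.le
    rw [← abs_mul, show B * k = -(2 * A ^ 2) by linarith, abs_neg, abs_mul, abs_pow] at h2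
    have h3 : |A| ^ 2 ≤ H ^ 2 := pow_le_pow_left₀ hA0 hA 2
    have h4 : |(2:ℤ)| = 2 := by norm_num
    rw [h4] at h2
    have h5 : 0 < H ^ 2 := by positivity
    linarith

end Pool.Agent.H383R3.HL
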