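import Pool.Agent.H383R3.HL.Core

/-! # Hall–Lang bounds for integral points whose abscissa is close to a rational square -/

set_option autoImplicit false

namespace Pool.Agent.H383R3.HL

theorem height_pos (A B : ℤ) (hns : 4 * A ^ 3 + 27 * B ^ 2 ≠ 0) : 1 ≤ max |A| |B| := by
  by_contra hc
  push Not at hc
  have h1 : |A| ≤ 0 := by have := le_max_left |A| |B|; omega
  have h2 : |B| ≤ 0 := by have := le_max_right |A| |B|; omega
  rw [abs_nonpos_iff] at h1 h2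
  subst h1; subst h2
  simp at hns

/-- the bound for `a` -/
theorem abound (A B x y a b : ℤ) (hns : 4 * A ^ 3 + 27 * B ^ 2 ≠ 0)
    (heq : y ^ 2 = x ^ 3 + A * x + B) (hb : 0 < b) (hk : 100 * |b ^ 2 * x - a ^ 2| ^ 3 ≤ a ^ 2) :
    |a| ≤ 100 * (b ^ 6 * max |A| |B|) := by
  by_contra hc
  push Not at hc
  have hH := height_pos A B hns
  have hAH := le_max_left |A| |B|
  have hBH := le_max_right |A| |B|
  set H := max |A| |B| with hHd
  have hb1 : 1 ≤ b := hb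
  have hb2 : 1 ≤ b ^ 2 := one_le_pow₀ hb1
  have hb4 : 0 < b ^ 4 := by positivity
  have hb6 : 1 ≤ b ^ 6 := one_le_pow₀ hb1
  have hb46 : b ^ 4 * 1 ≤ b ^ 4 * b ^ 2 := mul_le_mul_of_nonneg_left hb2 hb4.le
  have h1 : 100 * |b ^ 4 * A| ≤ |a| := by
    rw [abs_mul, abs_of_pos hb4]
    have q1 : b ^ 4 * |A| ≤ b ^ 4 * H := mul_le_mul_of_nonneg_left hAH hb4.le
    have q2 : b ^ 4 * H ≤ b ^ 6 * H := mul_le_mul_of_nonneg_right (by linarith) (by omega)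
    linarith
  have h2 : 100 * |b ^ 6 * B| ≤ |a| := by
    rw [abs_mul, abs_of_pos (by positivity : 0 < b ^ 6)]
    have q1 : b ^ 6 * |B| ≤ b ^ 6 * H := mul_le_mul_of_nonneg_left hBH (by positivity)
    linarith
  have h3 : 100 < |a| := by
    have : 1 * 1 ≤ b ^ 6 * H := mul_le_mul hb6 hH (by norm_num) (by positivity)
    linarith
  have h4 := core (b ^ 4 * A) (b ^ 6 * B) (b ^ 2 * x) |b ^ 3 * y| |a| h1 h2 h3 (abs_nonneg _)
    (by rw [sq_abs]; exact hk) (by rw [sq_abs]; linear_combination (b ^ 6) * heq)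
  apply hns
  have h5 : b ^ 12 * (4 * A ^ 3 + 27 * B ^ 2) = 0 := by linear_combination h4
  exact (mul_eq_zero.mp h5).resolve_left (by positivity)

/-- uniform bounds -/
theorem near (A B x y a b : ℤ) (hns : 4 * A ^ 3 + 27 * B ^ 2 ≠ 0)
    (heq : y ^ 2 = x ^ 3 + A * x + B) (hb : 0 < b) (hk : 100 * |b ^ 2 * x - a ^ 2| ^ 3 ≤ a ^ 2) :
    |x| ≤ 10 ^ 5 * (b ^ 5 * max |A| |B|) ^ 2 ∧ |y| ≤ 10 ^ 7 * (b ^ 5 * max |A| |B|) ^ 3 := by
  have ha := abound A B x y a b hns heq hb hk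
  have hH := height_pos A B hns
  have hAH := le_max_left |A| |B|
  have hBH := le_max_right |A| |B|
  set H := max |A| |B| with hHd
  have hb1 : 1 ≤ b := hb
  have hH0 : 0 < H := by omega
  have ht := le_cube |b ^ 2 * x - a ^ 2| (abs_nonneg _)
  have hasq : a ^ 2 ≤ (100 * (b ^ 6 * H)) ^ 2 := by
    rw [← sq_abs a]
    exact pow_le_pow_left₀ (abs_nonneg a) ha 2
  have h1 : 100 * (b ^ 2 * |x|) ≤ 101 * a ^ 2 := by
    have q1 : b ^ 2 * |x| = |b ^ 2 * x| := by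
      rw [abs_mul, abs_of_pos (by positivity : 0 < b ^ 2)]
    have q2 : |b ^ 2 * x| ≤ |b ^ 2 * x - a ^ 2| + |a ^ 2| := by
      have := abs_add_le (b ^ 2 * x - a ^ 2) (a ^ 2)
      rwa [sub_add_cancel] at this
    have q3 : |a ^ 2| = a ^ 2 := abs_of_nonneg (by positivity)
    rw [q1]
    linarith
  have h2 : b ^ 2 * |x| ≤ b ^ 2 * (10100 * (b ^ 5 * H) ^ 2) := by
    have : b ^ 2 * (10100 * (b ^ 5 * H) ^ 2) = 10100 * (b ^ 6 * H) ^ 2 := by ring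
    rw [this]
    linarith
  have h3 : |x| ≤ 10100 * (b ^ 5 * H) ^ 2 := le_of_mul_le_mul_left h2 (by positivity)
  have hG0 : 1 ≤ b ^ 5 * H := by
    have : 1 * 1 ≤ b ^ 5 * H := mul_le_mul (one_le_pow₀ hb1) hH (by norm_num) (by positivity)
    linarith
  have hHG : H ≤ b ^ 5 * H := by
    have : 1 * H ≤ b ^ 5 * H := mul_le_mul_of_nonneg_right (one_le_pow₀ hb1) hH0.le
    linarith
  set g := b ^ 5 * H with hg
  have hg2 : g ≤ g ^ 2 := by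
    have : g * 1 ≤ g * g := mul_le_mul_of_nonneg_left hG0 (by omega)
    linarith
  refine ⟨?_, ?_⟩
  · have : 0 ≤ g ^ 2 := by positivity
    linarith
  · apply abs_le_of_sq_le_sq _ (by positivity)
    rw [heq]
    have k1 : x ^ 3 ≤ (10100 * g ^ 2) ^ 3 := by
      have q := le_abs_self (x ^ 3)
      rw [abs_pow] at q
      exact q.trans (pow_le_pow_left₀ (abs_nonneg x) h3 3)
    have k2 : A * x ≤ g ^ 2 * (10100 * g ^ 2) := by
      have q := le_abs_self (A * x)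
      rw [abs_mul] at q
      exact q.trans (mul_le_mul (by omega) h3 (abs_nonneg x) (by positivity))
    have k3 : B ≤ g ^ 2 := by
      have := le_abs_self B
      omega
    have hg1 : 1 ≤ g ^ 2 := by omega
    have k4 : g ^ 2 * g ^ 2 * 1 ≤ g ^ 2 * g ^ 2 * g ^ 2 := mul_le_mul_of_nonneg_left hg1 (by positivity)
    have k5 : g ^ 2 * 1 ≤ g ^ 2 * g ^ 2 := mul_le_mul_of_nonneg_left hg1 (by positivity)
    have k6 : 0 < g ^ 6 := by positivity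
    linarith

theorem real_bound (ε : ℝ) (hε : 0 < ε) : ∃ K M : ℝ, 0 < K ∧ 0 < M ∧
    ∀ A B x y a b : ℤ, 4 * A ^ 3 + 27 * B ^ 2 ≠ 0 → y ^ 2 = x ^ 3 + A * x + B → 0 < b →
      100 * |b ^ 2 * x - a ^ 2| ^ 3 ≤ a ^ 2 → (b : ℝ) ^ 10 ≤ |(x : ℝ)| ^ (1 - ε) →
      max |(x : ℝ)| |(y : ℝ)| ≤ K * (max |(A : ℝ)| |(B : ℝ)|) ^ M := by
  refine ⟨2 * ((10:ℝ) ^ 5) ^ (2 / ε + 2), 4 / ε + 4, by positivity, by positivity, ?_⟩
  intro A B x y a b hns heq hb hk hbx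
  have h1 := (near A B x y a b hns heq hb hk).1
  have hH := height_pos A B hns
  have hAH := le_max_left |A| |B|
  have hBH := le_max_right |A| |B|
  have hHcast : max |(A : ℝ)| |(B : ℝ)| = ((max |A| |B| : ℤ) : ℝ) := by push_cast; rfl
  rw [hHcast]
  set H := max |A| |B| with hHd
  have h1' : |(x:ℝ)| ≤ 10 ^ 5 * ((b:ℝ) ^ 5 * (H:ℝ)) ^ 2 := by
    have := (Int.cast_le (R := ℝ)).2 h1
    push_cast at this
    have e : (10:ℝ) ^ 5 = 100000 := by norm_num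
    rw [e]
    exact this
  have hHr : (1:ℝ) ≤ (H:ℝ) := by exact_mod_cast hH
  have hAr : |(A:ℝ)| ≤ (H:ℝ) := by exact_mod_cast hAH
  have hBr : |(B:ℝ)| ≤ (H:ℝ) := by exact_mod_cast hBH
  set W : ℝ := 10 ^ 5 * (H:ℝ) ^ 2 with hW
  have hH2 : (1:ℝ) ≤ (H:ℝ) ^ 2 := one_le_pow₀ hHr
  have hHH2 : (H:ℝ) ≤ (H:ℝ) ^ 2 := by
    have := mul_le_mul_of_nonneg_left hHr (by linarith : (0:ℝ) ≤ (H:ℝ))
    linarith
  have hW1 : 1 ≤ W := by rw [hW]; linarith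
  have hWH : (H:ℝ) ≤ W := by rw [hW]; linarith
  -- |x| ≤ W^(1/ε)
  have hx : |(x:ℝ)| ≤ W ^ (1 / ε) := by
    rcases eq_or_ne x 0 with h0 | h0
    · subst h0; simp; positivity
    · have hx0 : 0 < |(x:ℝ)| := abs_pos.2 (by exact_mod_cast h0)
      have q1 : |(x:ℝ)| ≤ |(x:ℝ)| ^ (1 - ε) * W := by
        calc |(x:ℝ)| ≤ 10 ^ 5 * ((b:ℝ) ^ 5 * (H:ℝ)) ^ 2 := h1'
          _ = (b:ℝ) ^ 10 * W := by rw [hW]; ring
          _ ≤ |(x:ℝ)| ^ (1 - ε) * W := mul_le_mul_of_nonneg_right hbx (by linarith)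
      have q2 : |(x:ℝ)| = |(x:ℝ)| ^ (1 - ε) * |(x:ℝ)| ^ ε := by
        rw [← Real.rpow_add hx0]; simp
      have q3 : |(x:ℝ)| ^ (1 - ε) * |(x:ℝ)| ^ ε ≤ |(x:ℝ)| ^ (1 - ε) * W := by
        rw [← q2]; exact q1
      have q4 : |(x:ℝ)| ^ ε ≤ W := le_of_mul_le_mul_left q3 (Real.rpow_pos_of_pos hx0 _)
      calc |(x:ℝ)| = (|(x:ℝ)| ^ ε) ^ (1 / ε) := by
            rw [← Real.rpow_mul hx0.le, mul_one_div_cancel hε.ne', Real.rpow_one]
        _ ≤ W ^ (1 / ε) := Real.rpow_le_rpow (by positivity) q4 (by positivity)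
  set Z : ℝ := W ^ (1 / ε + 1) with hZ
  have hxZ : |(x:ℝ)| ≤ Z := hx.trans (Real.rpow_le_rpow_of_exponent_le hW1 (by linarith))
  have hWZ : W ≤ Z := by
    calc W = W ^ (1:ℝ) := (Real.rpow_one W).symm
      _ ≤ Z := Real.rpow_le_rpow_of_exponent_le hW1 (by
          have : 0 < 1 / ε := by positivity
          linarith)
  have hZ1 : 1 ≤ Z := hW1.trans hWZ
  have hZ0 : 0 < Z := by linarith
  have hZ2 : Z ≤ Z ^ 2 := by
    have := mul_le_mul_of_nonneg_left hZ1 hZ0.le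
    linarith
  have hy : |(y:ℝ)| ≤ 2 * Z ^ 2 := by
    apply abs_le_of_sq_le_sq _ (by positivity)
    have heq' : (y:ℝ) ^ 2 = (x:ℝ) ^ 3 + (A:ℝ) * (x:ℝ) + (B:ℝ) := by exact_mod_cast heq
    rw [heq']
    have k1 : (x:ℝ) ^ 3 ≤ Z ^ 3 := by
      have q := le_abs_self ((x:ℝ) ^ 3)
      rw [abs_pow] at q
      exact q.trans (pow_le_pow_left₀ (abs_nonneg _) hxZ 3)
    have k2 : (A:ℝ) * (x:ℝ) ≤ Z * Z := by
      have q := le_abs_self ((A:ℝ) * (x:ℝ))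
      rw [abs_mul] at q
      exact q.trans (mul_le_mul (hAr.trans (hWH.trans hWZ)) hxZ (abs_nonneg _) hZ0.le)
    have k3 : (B:ℝ) ≤ Z := (le_abs_self _).trans (hBr.trans (hWH.trans hWZ))
    have k4 : Z ^ 3 * 1 ≤ Z ^ 3 * Z := mul_le_mul_of_nonneg_left hZ1 (by positivity)
    have k5 : Z ^ 2 * 1 ≤ Z ^ 2 * Z := mul_le_mul_of_nonneg_left hZ1 (by positivity)
    have k6 : 0 ≤ Z ^ 4 := by positivity
    linarith
  have hfin : 2 * Z ^ 2 = 2 * ((10:ℝ) ^ 5) ^ (2 / ε + 2) * (H:ℝ) ^ (4 / ε + 4) := by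
    have e1 : Z ^ 2 = W ^ (2 / ε + 2) := by
      rw [hZ, ← Real.rpow_natCast, ← Real.rpow_mul (by linarith)]
      congr 1; push_cast; ring
    rw [e1, hW, Real.mul_rpow (by positivity) (by positivity)]
    have e2 : ((H:ℝ) ^ 2) ^ (2 / ε + 2) = (H:ℝ) ^ (4 / ε + 4) := by
      rw [← Real.rpow_natCast, ← Real.rpow_mul (by linarith)]
      congr 1; push_cast; ring
    rw [e2]; ring
  rw [← hfin]
  exact max_le (hxZ.trans (by linarith)) hy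

theorem sharp (n : ℤ) (hn : 1 ≤ n) : 4 * (2 * n) ^ 3 + 27 * (1:ℤ) ^ 2 ≠ 0 ∧
    (n ^ 3 + 1) ^ 2 = (n ^ 2) ^ 3 + (2 * n) * (n ^ 2) + 1 ∧
    4 * n ^ 2 = (max |2 * n| |1|) ^ 2 ∧ (max |2 * n| |1|) ^ 3 < 8 * (n ^ 3 + 1) := by
  have h1 : max |2 * n| |1| = 2 * n := by
    rw [abs_of_nonneg (by omega : 0 ≤ 2 * n), abs_one]
    exact max_eq_left (by omega)
  have h2 : 0 < n ^ 3 := by positivity
  rw [h1]
  refine ⟨by positivity, by ring, by ring, by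
    have : (2 * n) ^ 3 = 8 * n ^ 3 := by ring
    rw [this]; linarith⟩

end Pool.Agent.H383R3.HL
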