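import Pool.Agent.H383R3.HL.Core3
import Pool.Agent.H383R3.HL.Main

/-! # Hall–Lang bounds near rational squares: the second range -/

set_option autoImplicit false

namespace Pool.Agent.H383R3.HL

theorem abound2 (A B x y a b : ℤ) (hns : 4 * A ^ 3 + 27 * B ^ 2 ≠ 0)
    (heq : y ^ 2 = x ^ 3 + A * x + B) (hb : 0 < b) (hk : 1000 * |b ^ 2 * x - a ^ 2| ^ 5 ≤ a ^ 4) :
    |a| ≤ 10 ^ 6 * (b ^ 6 * max |A| |B|) ^ 3 := by
  by_contra hc
  push Not at hc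
  have hH := height_pos A B hns
  have hAH := le_max_left |A| |B|
  have hBH := le_max_right |A| |B|
  set H := max |A| |B| with hHd
  have hb1 : 1 ≤ b := hb
  have hb2 : 1 ≤ b ^ 2 := one_le_pow₀ hb1
  have hb4 : 0 < b ^ 4 := by positivity
  have hb6 : 1 ≤ b ^ 6 := one_le_pow₀ hb1
  have hb46 : b ^ 4 * 1 ≤ b ^ 4 * b ^ 2 := mul_le_mul_of_nonneg_left hb2 hb4.le
  have h1 : |b ^ 4 * A| ≤ b ^ 6 * H := by
    rw [abs_mul, abs_of_pos hb4]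
    have q1 : b ^ 4 * |A| ≤ b ^ 4 * H := mul_le_mul_of_nonneg_left hAH hb4.le
    have q2 : b ^ 4 * H ≤ b ^ 6 * H := mul_le_mul_of_nonneg_right (by linarith) (by omega)
    linarith
  have h2 : |b ^ 6 * B| ≤ b ^ 6 * H := by
    rw [abs_mul, abs_of_pos (by positivity : 0 < b ^ 6)]
    exact mul_le_mul_of_nonneg_left hBH (by positivity)
  have h3 : 1 ≤ b ^ 6 * H := by
    have : 1 * 1 ≤ b ^ 6 * H := mul_le_mul hb6 hH (by norm_num) (by positivity)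
    linarith
  have h4 := core2 (b ^ 4 * A) (b ^ 6 * B) (b ^ 2 * x) |b ^ 3 * y| |a| (b ^ 6 * H) h1 h2 h3 hc
    (abs_nonneg _)
    (by
      have : |a| ^ 4 = a ^ 4 := by rw [show 4 = 2 * 2 from rfl, pow_mul, pow_mul, sq_abs]
      rw [sq_abs, this]; exact hk)
    (by rw [sq_abs]; linear_combination (b ^ 6) * heq)
  apply hns
  have h5 : b ^ 12 * (4 * A ^ 3 + 27 * B ^ 2) = 0 := by linear_combination h4
  exact (mul_eq_zero.mp h5).resolve_left (by positivity)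

theorem near2 (A B x y a b : ℤ) (hns : 4 * A ^ 3 + 27 * B ^ 2 ≠ 0)
    (heq : y ^ 2 = x ^ 3 + A * x + B) (hb : 0 < b) (hk : 1000 * |b ^ 2 * x - a ^ 2| ^ 5 ≤ a ^ 4) :
    |x| ≤ 2 * 10 ^ 12 * (b ^ 17 * max |A| |B| ^ 3) ^ 2 ∧
      |y| ≤ 10 ^ 19 * (b ^ 17 * max |A| |B| ^ 3) ^ 3 := by
  have ha := abound2 A B x y a b hns heq hb hk
  have hH := height_pos A B hns
  have hAH := le_max_left |A| |B|
  have hBH := le_max_right |A| |B|
  set H := max |A| |B| with hHd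
  have hb1 : 1 ≤ b := hb
  have hH0 : 0 < H := by omega
  have hta : |b ^ 2 * x - a ^ 2| ≤ a ^ 2 := by
    rcases eq_or_ne a 0 with h0 | h0
    · subst h0
      have h1 : |b ^ 2 * x - 0 ^ 2| ^ 5 ≤ 0 := by
        have : (0:ℤ) ^ 4 = 0 := by norm_num
        rw [this] at hk; linarith
      have h2 : |b ^ 2 * x - 0 ^ 2| ^ 5 = 0 := le_antisymm h1 (by positivity)
      have h3 : |b ^ 2 * x - 0 ^ 2| = 0 := by simpa using h2
      rw [h3]; simp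
    · by_contra hc
      push Not at hc
      have h1 : 1 ≤ a ^ 2 := by
        have : 0 < a ^ 2 := by positivity
        omega
      have h2 : (a ^ 2) ^ 5 ≤ |b ^ 2 * x - a ^ 2| ^ 5 := pow_le_pow_left₀ (by positivity) hc.le 5
      have h3 : a ^ 4 * 1 ≤ a ^ 4 * (a ^ 2) ^ 3 :=
        mul_le_mul_of_nonneg_left (one_le_pow₀ h1) (by positivity)
      have h4 : 0 < a ^ 4 := by positivity
      linarith
  have hasq : a ^ 2 ≤ (10 ^ 6 * (b ^ 6 * H) ^ 3) ^ 2 := by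
    rw [← sq_abs a]
    exact pow_le_pow_left₀ (abs_nonneg a) ha 2
  have h1 : b ^ 2 * |x| ≤ 2 * a ^ 2 := by
    have q1 : b ^ 2 * |x| = |b ^ 2 * x| := by
      rw [abs_mul, abs_of_pos (by positivity : 0 < b ^ 2)]
    have q2 : |b ^ 2 * x| ≤ |b ^ 2 * x - a ^ 2| + |a ^ 2| := by
      have := abs_add_le (b ^ 2 * x - a ^ 2) (a ^ 2)
      rwa [sub_add_cancel] at this
    have q3 : |a ^ 2| = a ^ 2 := abs_of_nonneg (by positivity)
    rw [q1]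
    linarith
  have h2 : b ^ 2 * |x| ≤ b ^ 2 * (2 * 10 ^ 12 * (b ^ 17 * H ^ 3) ^ 2) := by
    have : b ^ 2 * (2 * 10 ^ 12 * (b ^ 17 * H ^ 3) ^ 2) = 2 * (10 ^ 6 * (b ^ 6 * H) ^ 3) ^ 2 := by ring
    rw [this]
    linarith
  have h3 : |x| ≤ 2 * 10 ^ 12 * (b ^ 17 * H ^ 3) ^ 2 := le_of_mul_le_mul_left h2 (by positivity)
  refine ⟨h3, ?_⟩
  have hHH3 : H * 1 ≤ H * H ^ 2 := mul_le_mul_of_nonneg_left (one_le_pow₀ hH) hH0.le
  have hG1 : H ^ 3 ≤ b ^ 17 * H ^ 3 := by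
    have : 1 * H ^ 3 ≤ b ^ 17 * H ^ 3 := mul_le_mul_of_nonneg_right (one_le_pow₀ hb1) (by positivity)
    linarith
  have hHg : H ≤ b ^ 17 * H ^ 3 := by linarith
  have hG0 : 1 ≤ b ^ 17 * H ^ 3 := by linarith
  set g := b ^ 17 * H ^ 3 with hg
  have hg2 : g ≤ g ^ 2 := by
    have : g * 1 ≤ g * g := mul_le_mul_of_nonneg_left hG0 (by omega)
    linarith
  apply abs_le_of_sq_le_sq _ (by positivity)
  rw [heq]
  have k1 : x ^ 3 ≤ (2 * 10 ^ 12 * g ^ 2) ^ 3 := by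
    have q := le_abs_self (x ^ 3)
    rw [abs_pow] at q
    exact q.trans (pow_le_pow_left₀ (abs_nonneg x) h3 3)
  have k2 : A * x ≤ g ^ 2 * (2 * 10 ^ 12 * g ^ 2) := by
    have q := le_abs_self (A * x)
    rw [abs_mul] at q
    exact q.trans (mul_le_mul (by omega) h3 (abs_nonneg x) (by positivity))
  have k3 : B ≤ g ^ 2 := by
    have := le_abs_self B
    omega
  have hg1 : 1 ≤ g ^ 2 := by omega
  have k4 : g ^ 2 * g ^ 2 * 1 ≤ g ^ 2 * g ^ 2 * g ^ 2 := mul_le_mul_of_nonneg_left hg1 (by positivity)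
  have k5 : g ^ 2 * 1 ≤ g ^ 2 * g ^ 2 := mul_le_mul_of_nonneg_left hg1 (by positivity)
  have k6 : 0 < g ^ 6 := by positivity
  linarith

/-- from a relative bound to an absolute bound -/
theorem rb (ε : ℝ) (hε : 0 < ε) (A B x y : ℤ) (hns : 4 * A ^ 3 + 27 * B ^ 2 ≠ 0)
    (heq : y ^ 2 = x ^ 3 + A * x + B) (P : ℝ)
    (hx1 : |(x : ℝ)| ≤ P * (2 * 10 ^ 12 * (max |(A : ℝ)| |(B : ℝ)|) ^ 6))
    (hP : P ≤ |(x : ℝ)| ^ (1 - ε)) :
    max |(x : ℝ)| |(y : ℝ)| ≤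
      2 * (2 * (10:ℝ) ^ 12) ^ (2 / ε + 2) * (max |(A : ℝ)| |(B : ℝ)|) ^ (12 / ε + 12) := by
  have hH := height_pos A B hns
  have hAH := le_max_left |A| |B|
  have hBH := le_max_right |A| |B|
  have hHcast : max |(A : ℝ)| |(B : ℝ)| = ((max |A| |B| : ℤ) : ℝ) := by push_cast; rfl
  rw [hHcast] at hx1 ⊢
  set H := max |A| |B| with hHd
  have hHr : (1:ℝ) ≤ (H:ℝ) := by exact_mod_cast hH
  have hAr : |(A:ℝ)| ≤ (H:ℝ) := by exact_mod_cast hAH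
  have hBr : |(B:ℝ)| ≤ (H:ℝ) := by exact_mod_cast hBH
  set W : ℝ := 2 * 10 ^ 12 * (H:ℝ) ^ 6 with hW
  have hH2 : (1:ℝ) ≤ (H:ℝ) ^ 6 := one_le_pow₀ hHr
  have hHH2 : (H:ℝ) ≤ (H:ℝ) ^ 6 := by
    have := mul_le_mul_of_nonneg_left (one_le_pow₀ hHr : (1:ℝ) ≤ (H:ℝ) ^ 5)
      (by linarith : (0:ℝ) ≤ (H:ℝ))
    linarith
  have hW1 : 1 ≤ W := by rw [hW]; linarith
  have hWH : (H:ℝ) ≤ W := by rw [hW]; linarith
  have hx : |(x:ℝ)| ≤ W ^ (1 / ε) := by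
    rcases eq_or_ne x 0 with h0 | h0
    · subst h0; simp; positivity
    · have hx0 : 0 < |(x:ℝ)| := abs_pos.2 (by exact_mod_cast h0)
      have q1 : |(x:ℝ)| ≤ |(x:ℝ)| ^ (1 - ε) * W :=
        hx1.trans (mul_le_mul_of_nonneg_right hP (by linarith))
      have q2 : |(x:ℝ)| = |(x:ℝ)| ^ (1 - ε) * |(x:ℝ)| ^ ε := by
        rw [← Real.rpow_add hx0]; simp
      have q3 : |(x:ℝ)| ^ (1 - ε) * |(x:ℝ)| ^ ε ≤ |(x:ℝ)| ^ (1 - ε) * W := by
        rw [← q2]; exact q1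
      have q4 : |(x:ℝ)| ^ ε ≤ W := le_of_mul_le_mul_left q3 (Real.rpow_pos_of_pos hx0 _)
      calc |(x:ℝ)| = (|(x:ℝ)| ^ ε) ^ (1 / ε) := by
            rw [← Real.rpow_mul hx0.le, mul_one_div_cancel hε.ne', Real.rpow_one]
        _ ≤ W ^ (1 / ε) := Real.rpow_le_rpow (by positivity) q4 (by positivity)
  set Z : ℝ := W ^ (1 / ε + 1) with hZ
  have hxZ : |(x:ℝ)| ≤ Z := hx.trans (Real.rpow_le_rpow_of_exponent_le hW1 (by linarith))
  have hWZ : W ≤ Z := by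
    calc W = W ^ (1:ℝ) := (Real.rpow_one W).symm
      _ ≤ Z := Real.rpow_le_rpow_of_exponent_le hW1 (by
          have : 0 < 1 / ε := by positivity
          linarith)
  have hZ1 : 1 ≤ Z := hW1.trans hWZ
  have hZ0 : 0 < Z := by linarith
  have hZ2 : Z ≤ Z ^ 2 := by
    have := mul_le_mul_of_nonneg_left hZ1 hZ0.le
    linarith
  have hy : |(y:ℝ)| ≤ 2 * Z ^ 2 := by
    apply abs_le_of_sq_le_sq _ (by positivity)
    have heq' : (y:ℝ) ^ 2 = (x:ℝ) ^ 3 + (A:ℝ) * (x:ℝ) + (B:ℝ) := by exact_mod_cast heq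
    rw [heq']
    have k1 : (x:ℝ) ^ 3 ≤ Z ^ 3 := by
      have q := le_abs_self ((x:ℝ) ^ 3)
      rw [abs_pow] at q
      exact q.trans (pow_le_pow_left₀ (abs_nonneg _) hxZ 3)
    have k2 : (A:ℝ) * (x:ℝ) ≤ Z * Z := by
      have q := le_abs_self ((A:ℝ) * (x:ℝ))
      rw [abs_mul] at q
      exact q.trans (mul_le_mul (hAr.trans (hWH.trans hWZ)) hxZ (abs_nonneg _) hZ0.le)
    have k3 : (B:ℝ) ≤ Z := (le_abs_self _).trans (hBr.trans (hWH.trans hWZ))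
    have k4 : Z ^ 3 * 1 ≤ Z ^ 3 * Z := mul_le_mul_of_nonneg_left hZ1 (by positivity)
    have k5 : Z ^ 2 * 1 ≤ Z ^ 2 * Z := mul_le_mul_of_nonneg_left hZ1 (by positivity)
    have k6 : 0 ≤ Z ^ 4 := by positivity
    linarith
  have hfin : 2 * Z ^ 2 = 2 * (2 * (10:ℝ) ^ 12) ^ (2 / ε + 2) * (H:ℝ) ^ (12 / ε + 12) := by
    have e1 : Z ^ 2 = W ^ (2 / ε + 2) := by
      rw [hZ, ← Real.rpow_natCast, ← Real.rpow_mul (by linarith)]
      congr 1; push_cast; ring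
    rw [e1, hW, Real.mul_rpow (by positivity) (by positivity)]
    have e2 : ((H:ℝ) ^ 6) ^ (2 / ε + 2) = (H:ℝ) ^ (12 / ε + 12) := by
      rw [← Real.rpow_natCast, ← Real.rpow_mul (by linarith)]
      congr 1; push_cast; ring
    rw [e2]; ring
  rw [← hfin]
  exact max_le (hxZ.trans (by linarith)) hy

theorem real_bound2 (ε : ℝ) (hε : 0 < ε) : ∃ K M : ℝ, 0 < K ∧ 0 < M ∧
    ∀ A B x y a b : ℤ, 4 * A ^ 3 + 27 * B ^ 2 ≠ 0 → y ^ 2 = x ^ 3 + A * x + B → 0 < b →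
      ((100 * |b ^ 2 * x - a ^ 2| ^ 3 ≤ a ^ 2 ∧ (b : ℝ) ^ 10 ≤ |(x : ℝ)| ^ (1 - ε)) ∨
        (1000 * |b ^ 2 * x - a ^ 2| ^ 5 ≤ a ^ 4 ∧ (b : ℝ) ^ 34 ≤ |(x : ℝ)| ^ (1 - ε))) →
      max |(x : ℝ)| |(y : ℝ)| ≤ K * (max |(A : ℝ)| |(B : ℝ)|) ^ M := by
  refine ⟨2 * (2 * (10:ℝ) ^ 12) ^ (2 / ε + 2), 12 / ε + 12, by positivity, by positivity, ?_⟩
  intro A B x y a b hns heq hb hcase
  have hH := height_pos A B hns
  have hHcast : max |(A : ℝ)| |(B : ℝ)| = ((max |A| |B| : ℤ) : ℝ) := by push_cast; rfl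
  have hHr : (1:ℝ) ≤ max |(A : ℝ)| |(B : ℝ)| := by rw [hHcast]; exact_mod_cast hH
  have hbr : (0:ℝ) < (b:ℝ) := by exact_mod_cast hb
  rcases hcase with ⟨hk, hbx⟩ | ⟨hk, hbx⟩
  · apply rb ε hε A B x y hns heq _ _ hbx
    have h1 := (near A B x y a b hns heq hb hk).1
    have h1' : |(x:ℝ)| ≤ 10 ^ 5 * ((b:ℝ) ^ 5 * max |(A : ℝ)| |(B : ℝ)|) ^ 2 := by
      have := (Int.cast_le (R := ℝ)).2 h1
      push_cast at this
      have e : (10:ℝ) ^ 5 = 100000 := by norm_num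
      rw [e]
      exact this
    set h := max |(A : ℝ)| |(B : ℝ)|
    have h2 : h ^ 2 * 1 ≤ h ^ 2 * h ^ 4 := mul_le_mul_of_nonneg_left (one_le_pow₀ hHr) (by positivity)
    have h3 : (b:ℝ) ^ 10 * (10 ^ 5 * h ^ 2) ≤ (b:ℝ) ^ 10 * (2 * 10 ^ 12 * h ^ 6) := by
      apply mul_le_mul_of_nonneg_left _ (by positivity)
      have : 0 < h ^ 6 := by positivity
      linarith
    linarith
  · apply rb ε hε A B x y hns heq _ _ hbx
    have h1 := (near2 A B x y a b hns heq hb hk).1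
    have h1' : |(x:ℝ)| ≤ 2 * 10 ^ 12 * ((b:ℝ) ^ 17 * max |(A : ℝ)| |(B : ℝ)| ^ 3) ^ 2 := by
      have := (Int.cast_le (R := ℝ)).2 h1
      push_cast at this
      have e : (2:ℝ) * (10:ℝ) ^ 12 = 2000000000000 := by norm_num
      rw [e]
      exact this
    linarith

end Pool.Agent.H383R3.HL
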